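import Pool.Agent.L7h88.Dow.Mat

/-! Embeddings of a three point configuration with long coordinate lines. -/

namespace Pool.Agent.L7h88.Dow

open Finset

set_option linter.unusedSectionVars false

variable {A B : Type} [Group A] [Group B]

/-- the gain of a point, oriented -/
def gain (x : Pt B) (i j : Fin 3) : B :=
  Sum.elim (fun _ => 1) (fun c => if c.2.1 = (i, j) then c.1 else c.1⁻¹) x

theorem gain_line {x : Pt B} {a b : B} (h : On x (Ln.T a b)) {i j : Fin 3} (hij : i ≠ j)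
    (hV : V x = {i, j}) : gain x i j = ![a * b, b, 1] i * (![a * b, b, 1] j)⁻¹ := by
  rcases h with rfl | rfl | rfl
  · rw [V_01] at hV
    have : (i = 0 ∧ j = 1) ∨ (i = 1 ∧ j = 0) := by
      revert i j; decide
    rcases this with ⟨rfl, rfl⟩ | ⟨rfl, rfl⟩ <;> simp [gain, i01]
  · rw [V_12] at hV
    have : (i = 1 ∧ j = 2) ∨ (i = 2 ∧ j = 1) := by
      revert i j; decide
    rcases this with ⟨rfl, rfl⟩ | ⟨rfl, rfl⟩ <;> simp [gain, i12]
  · rw [V_02] at hV
    have : (i = 0 ∧ j = 2) ∨ (i = 2 ∧ j = 0) := by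
      revert i j; decide
    rcases this with ⟨rfl, rfl⟩ | ⟨rfl, rfl⟩ <;> simp [gain, i02]

theorem gain_inj {x y : Pt B} {i j : Fin 3} (hij : i ≠ j) (h1 : V x = {i, j}) (h2 : V y = {i, j})
    (h : gain x i j = gain y i j) : x = y := by
  have h3 : V x = V y := by rw [h1, h2]
  rcases pt_cases x with ⟨k, rfl⟩ | ⟨u, rfl⟩ | ⟨u, rfl⟩ | ⟨u, rfl⟩
  · exfalso
    rw [V_inl] at h1
    clear h h2 h3
    revert i j k; decide
  all_goals
    rcases pt_cases y with ⟨k, rfl⟩ | ⟨v, rfl⟩ | ⟨v, rfl⟩ | ⟨v, rfl⟩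
  all_goals
    first
      | (exfalso; clear h h1 h2; revert h3; simp only [V_inl, V_01, V_12, V_02]; revert k; decide)
      | (exfalso; clear h h1 h2; revert h3; simp only [V_inl, V_01, V_12, V_02]; decide)
      | skip
  all_goals
    simp only [gain, i01, i12, i02, Sum.elim_inr] at h
    split_ifs at h
    · rw [h]
    · rw [inv_inj] at h; rw [h]

/-- the model configuration -/
abbrev D := Fin 3 ⊕ (Fin 10 × Fin 3)

/-- the internal point on the line opposite to `k` -/
def int (k : Fin 3) (a : A) : Pt A := ![i12 a, i02 a, i01 a] k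

def pos (e : Fin 10 → A) (p : D) : Pt A := Sum.elim (fun i => Sum.inl i) (fun x => int x.2 (e x.1)) p

theorem pos_inj {e : Fin 10 → A} (he : Function.Injective e) : Function.Injective (pos e) := by
  rintro (i | ⟨s, k⟩) (j | ⟨t, l⟩) h
  · simp only [pos, Sum.elim_inl, Sum.inl.injEq] at h
    rw [h]
  · exfalso
    simp only [pos, Sum.elim_inl, Sum.elim_inr] at h
    fin_cases l
    · exact m2 h
    · exact m3 h
    · exact m1 h
  · exfalso
    simp only [pos, Sum.elim_inl, Sum.elim_inr] at h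
    fin_cases k
    · exact m2 h.symm
    · exact m3 h.symm
    · exact m1 h.symm
  · simp only [pos, Sum.elim_inr] at h
    fin_cases k <;> fin_cases l
    · have := i12_inj.1 h
      rw [he this]
    · exact absurd h n3
    · exact absurd h n1'
    · exact absurd h n3'
    · have := i02_inj.1 h
      rw [he this]
    · exact absurd h n2'
    · exact absurd h n1
    · exact absurd h n2
    · have := i01_inj.1 h
      rw [he this]

theorem onC_inl {e : Fin 10 → A} {i k : Fin 3} : On (pos e (Sum.inl i)) (Ln.C k) ↔ k ≠ i := by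
  simp [pos, On, V]

theorem onC_inr {e : Fin 10 → A} {s : Fin 10} {j : Fin 3} : On (pos e (Sum.inr (s, j))) (Ln.C j) := by
  simp only [pos, On, Sum.elim_inr]
  fin_cases j
  · show (0 : Fin 3) ∉ V (i12 (e s)); rw [V_12]; decide
  · show (1 : Fin 3) ∉ V (i02 (e s)); rw [V_02]; decide
  · show (2 : Fin 3) ∉ V (i01 (e s)); rw [V_01]; decide

theorem aux1' : ∀ a b c : Fin 3, (a ≠ b ∧ a ≠ c ∧ b ≠ c ∧ c ∉ ({0, 1} : Finset (Fin 3))) →
    ({0, 1} : Finset (Fin 3)) = {a, b} := by decide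

theorem aux1 (a b c : Fin 3) (h1 : a ≠ b) (h2 : a ≠ c) (h3 : b ≠ c) (h4 : c ∉ ({0, 1} : Finset (Fin 3))) :
    ({0, 1} : Finset (Fin 3)) = {a, b} := aux1' a b c ⟨h1, h2, h3, h4⟩

theorem aux2' : ∀ a b c : Fin 3, (a ≠ b ∧ a ≠ c ∧ b ≠ c ∧ c ∉ ({1, 2} : Finset (Fin 3))) →
    ({1, 2} : Finset (Fin 3)) = {a, b} := by decide

theorem aux2 (a b c : Fin 3) (h1 : a ≠ b) (h2 : a ≠ c) (h3 : b ≠ c) (h4 : c ∉ ({1, 2} : Finset (Fin 3))) :
    ({1, 2} : Finset (Fin 3)) = {a, b} := aux2' a b c ⟨h1, h2, h3, h4⟩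

theorem aux3' : ∀ a b c : Fin 3, (a ≠ b ∧ a ≠ c ∧ b ≠ c ∧ c ∉ ({0, 2} : Finset (Fin 3))) →
    ({0, 2} : Finset (Fin 3)) = {a, b} := by decide

theorem aux3 (a b c : Fin 3) (h1 : a ≠ b) (h2 : a ≠ c) (h3 : b ≠ c) (h4 : c ∉ ({0, 2} : Finset (Fin 3))) :
    ({0, 2} : Finset (Fin 3)) = {a, b} := aux3' a b c ⟨h1, h2, h3, h4⟩

/-- **partial homomorphisms from embeddings** -/
theorem exists_hom {e : Fin 10 → A} (he0 : e 0 = 1) (F : D → Pt B) (hF : Function.Injective F)
    (hcol : ∀ p q r : D, p ≠ q → p ≠ r → q ≠ r → Col (pos e p) (pos e q) (pos e r) →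
      Col (F p) (F q) (F r))
    (hcol' : Col (F (Sum.inl 0)) (F (Sum.inl 1)) (F (Sum.inl 2)) →
      Col (pos e (Sum.inl 0)) (pos e (Sum.inl 1)) (pos e (Sum.inl 2))) :
    ∃ k : Fin 10 → B, Function.Injective k ∧ ∀ s t w, e s * e t = e w → k s * k t = k w := by
  -- long lines go to coordinate lines
  have h1 : ∀ k : Fin 3, ∃ k' : Fin 3, ∀ p : D, On (pos e p) (Ln.C k) → On (F p) (Ln.C k') := by
    intro k
    obtain ⟨l, l0, l1, -⟩ := hcol (Sum.inr (0, k)) (Sum.inr (1, k)) (Sum.inr (2, k)) (by simp) (by simp)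
      (by simp) ⟨Ln.C k, onC_inr, onC_inr, onC_inr⟩
    have h01 : F (Sum.inr (0, k)) ≠ F (Sum.inr (1, k)) := fun h => by
      have := hF h
      simp at this
    have hl : ∀ p : D, On (pos e p) (Ln.C k) → On (F p) l := by
      intro p hp
      by_cases g0 : (Sum.inr (0, k) : D) = p
      · rw [← g0]; exact l0
      by_cases g1 : (Sum.inr (1, k) : D) = p
      · rw [← g1]; exact l1
      obtain ⟨l', m0, m1, m2⟩ := hcol (Sum.inr (0, k)) (Sum.inr (1, k)) p (by simp) g0 g1
        ⟨Ln.C k, onC_inr, onC_inr, hp⟩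
      rw [line_unique h01 l0 l1 m0 m1]
      exact m2
    rcases l with k' | ⟨a, b⟩
    · exact ⟨k', hl⟩
    · exfalso
      have q0 := hl (Sum.inr (0, k)) onC_inr
      have q1 := hl (Sum.inr (1, k)) onC_inr
      have q2 := hl (Sum.inr (2, k)) onC_inr
      have q3 := hl (Sum.inr (3, k)) onC_inr
      have h02 : F (Sum.inr (0, k)) ≠ F (Sum.inr (2, k)) := fun h => by
        have := hF h
        simp at this
      have h03 : F (Sum.inr (0, k)) ≠ F (Sum.inr (3, k)) := fun h => by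
        have := hF h
        simp at this
      have h12 : F (Sum.inr (1, k)) ≠ F (Sum.inr (2, k)) := fun h => by
        have := hF h
        simp at this
      have h13 : F (Sum.inr (1, k)) ≠ F (Sum.inr (3, k)) := fun h => by
        have := hF h
        simp at this
      have h23 : F (Sum.inr (2, k)) ≠ F (Sum.inr (3, k)) := fun h => by
        have := hF h
        simp at this
      rcases q0 with q0 | q0 | q0 <;> rcases q1 with q1 | q1 | q1 <;>
        rcases q2 with q2 | q2 | q2 <;> rcases q3 with q3 | q3 | q3 <;>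
        first
          | exact h01 (q0.trans q1.symm)
          | exact h02 (q0.trans q2.symm)
          | exact h03 (q0.trans q3.symm)
          | exact h12 (q1.trans q2.symm)
          | exact h13 (q1.trans q3.symm)
          | exact h23 (q2.trans q3.symm)
  choose σ hσ using h1
  have hσi : Function.Injective σ := by
    intro k k' hkk
    by_contra hne
    have h2 : ∀ i : Fin 3, On (F (Sum.inl i)) (Ln.C (σ k)) := by
      intro i
      by_cases h3 : k = i
      · rw [hkk]
        exact hσ k' _ (onC_inl.2 (by rw [← h3]; exact fun h => hne h.symm))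
      · exact hσ k _ (onC_inl.2 h3)
    obtain ⟨l, l0, l1, l2⟩ := hcol' ⟨Ln.C (σ k), h2 0, h2 1, h2 2⟩
    rcases l with j | ⟨a, b⟩
    · rw [onC_inl] at l0 l1 l2
      revert l0 l1 l2
      clear hkk hne h2
      revert j
      decide
    · rcases l0 with h | h | h
      · exact m1 h
      · exact m2 h
      · exact m3 h
  have hσs : Function.Surjective σ := Finite.surjective_of_injective hσi
  -- joints
  have hJ : ∀ i : Fin 3, F (Sum.inl i) = Sum.inl (σ i) := by
    intro i
    have h2 : ∀ j, j ∈ V (F (Sum.inl i)) → j = σ i := by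
      intro j hj
      obtain ⟨k, rfl⟩ := hσs j
      by_contra hne
      have h3 : k ≠ i := fun h => hne (by rw [h])
      exact hσ k _ (onC_inl.2 h3) hj
    rcases pt_cases (F (Sum.inl i)) with ⟨j, hj⟩ | ⟨u, hj⟩ | ⟨u, hj⟩ | ⟨u, hj⟩
    · rw [hj]
      rw [hj] at h2
      rw [h2 j (by rw [V_inl]; simp)]
    all_goals
      exfalso
      rw [hj] at h2
      simp only [V_01, V_12, V_02] at h2
      clear hj
      revert h2
      generalize σ i = j
      revert j
      decide
  -- internal points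
  have hI : ∀ (s : Fin 10) (k i j : Fin 3), i ≠ j → i ≠ k → j ≠ k → V (F (Sum.inr (s, k))) = {σ i, σ j} := by
    intro s k i j hij hik hjk
    have h2 := hσ k _ (onC_inr (e := e) (s := s) (j := k))
    have h3 : σ i ≠ σ j := fun h => hij (hσi h)
    have h4 : σ i ≠ σ k := fun h => hik (hσi h)
    have h5 : σ j ≠ σ k := fun h => hjk (hσi h)
    simp only [On] at h2
    rcases pt_cases (F (Sum.inr (s, k))) with ⟨c, hc⟩ | ⟨u, hc⟩ | ⟨u, hc⟩ | ⟨u, hc⟩
    · exfalso
      obtain ⟨d, rfl⟩ := hσs c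
      rw [← hJ d] at hc
      have := hF hc
      simp at this
    · rw [hc, V_01] at h2 ⊢
      exact aux1 _ _ _ h3 h4 h5 h2
    · rw [hc, V_12] at h2 ⊢
      exact aux2 _ _ _ h3 h4 h5 h2
    · rw [hc, V_02] at h2 ⊢
      exact aux3 _ _ _ h3 h4 h5 h2
  obtain ⟨g2, hg2⟩ : ∃ g : Fin 10 → B, g = fun s => gain (F (Sum.inr (s, 2))) (σ 0) (σ 1) := ⟨_, rfl⟩
  obtain ⟨g0, hg0⟩ : ∃ g : Fin 10 → B, g = fun s => gain (F (Sum.inr (s, 0))) (σ 1) (σ 2) := ⟨_, rfl⟩
  obtain ⟨g1, hg1⟩ : ∃ g : Fin 10 → B, g = fun s => gain (F (Sum.inr (s, 1))) (σ 0) (σ 2) := ⟨_, rfl⟩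
  have s01 : σ 0 ≠ σ 1 := fun h => by simpa using hσi h
  have s12 : σ 1 ≠ σ 2 := fun h => by simpa using hσi h
  have s02 : σ 0 ≠ σ 2 := fun h => by simpa using hσi h
  have hmul : ∀ s t w, e s * e t = e w → g2 s * g0 t = g1 w := by
    intro s t w h
    obtain ⟨l, l0, l1, l2⟩ := hcol (Sum.inr (s, 2)) (Sum.inr (t, 0)) (Sum.inr (w, 1)) (by simp) (by simp)
      (by simp) ⟨Ln.T (e s) (e t), Or.inl rfl, Or.inr (Or.inl rfl), Or.inr (Or.inr (by rw [h]; rfl))⟩
    have v2 := hI s 2 0 1 (by simp) (by simp) (by simp)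
    have v0 := hI t 0 1 2 (by simp) (by simp) (by simp)
    have v1 := hI w 1 0 2 (by simp) (by simp) (by simp)
    rcases l with k | ⟨a, b⟩
    · exfalso
      simp only [On] at l0 l1
      rw [v2] at l0
      rw [v0] at l1
      obtain ⟨c, rfl⟩ := hσs k
      simp only [mem_insert, mem_singleton, not_or, hσi.eq_iff] at l0 l1
      clear l2 v2 v0 v1 hg0 hg1 hg2
      revert c
      decide
    · rw [hg2, hg0, hg1]
      simp only
      rw [gain_line l0 s01 v2, gain_line l1 s12 v0, gain_line l2 s02 v1]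
      group
  refine ⟨fun s => (g2 0)⁻¹ * g2 s, ?_, ?_⟩
  · intro s t h
    simp only [mul_right_inj] at h
    rw [hg2] at h
    have := hF (gain_inj s01 (hI s 2 0 1 (by simp) (by simp) (by simp))
      (hI t 2 0 1 (by simp) (by simp) (by simp)) h)
    simpa using this
  · intro s t w h
    have a1 := hmul s t w h
    have a2 := hmul w 0 w (by rw [he0, mul_one])
    have a3 := hmul t 0 t (by rw [he0, mul_one])
    have a4 := hmul 0 t t (by rw [he0, one_mul])
    have e1 : g0 t = (g2 0)⁻¹ * (g2 t * g0 0) := by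
      rw [a3, ← a4]; group
    have e2 : g2 w = g1 w * (g0 0)⁻¹ := by rw [← a2]; group
    simp only
    rw [e2, ← a1, e1]
    group

end Pool.Agent.L7h88.Dow
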