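import Mathlib

/-! The rank three Dowling geometry: lines, independence, the matroid. -/

namespace Pool.Agent.L7h88.Dow

open Finset

/-- the points -/
abbrev Pt (A : Type) := Fin 3 ⊕ (A × {p : Fin 3 × Fin 3 // p.1 < p.2})

/-- the vertices of a point -/
def V {A : Type} (e : Pt A) : Finset (Fin 3) :=
  Sum.elim (fun i => ({i} : Finset (Fin 3))) (fun x => ({x.2.1.1, x.2.1.2} : Finset (Fin 3))) e

/-- balanced sets -/
def Bal {A : Type} [Group A] (T : Finset (Pt A)) : Prop :=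
  (∀ i : Fin 3, Sum.inl i ∉ T) ∧
    ∃ φ : Fin 3 → A, ∀ x : A × {p : Fin 3 × Fin 3 // p.1 < p.2},
      Sum.inr x ∈ T → x.1 = φ x.2.1.1 * (φ x.2.1.2)⁻¹

/-- independence -/
def Ind {A : Type} [Group A] (S : Set (Pt A)) : Prop :=
  ∀ T : Finset (Pt A), (↑T ⊆ S) → T.Nonempty →
    (T.card ≤ (T.biUnion (fun e => V e)).card ∧ (Bal T → T.card + 1 ≤ (T.biUnion (fun e => V e)).card))

def i01 {A : Type} (a : A) : Pt A := Sum.inr (a, ⟨(0, 1), by decide⟩)
def i12 {A : Type} (a : A) : Pt A := Sum.inr (a, ⟨(1, 2), by decide⟩)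
def i02 {A : Type} (a : A) : Pt A := Sum.inr (a, ⟨(0, 2), by decide⟩)

theorem pt_cases {A : Type} (x : Pt A) : (∃ i, x = Sum.inl i) ∨ (∃ a, x = i01 a) ∨ (∃ a, x = i12 a) ∨
    (∃ a, x = i02 a) := by
  rcases x with i | ⟨a, ⟨⟨i, j⟩, h⟩⟩
  · exact Or.inl ⟨i, rfl⟩
  · right
    simp only at h
    fin_cases i <;> fin_cases j <;> simp at h
    · exact Or.inl ⟨a, rfl⟩
    · exact Or.inr (Or.inr ⟨a, rfl⟩)
    · exact Or.inr (Or.inl ⟨a, rfl⟩)

/-- lines with three or more points -/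
inductive Ln (A : Type)
  | C (k : Fin 3)
  | T (a b : A)

/-- incidence -/
def On {A : Type} [Group A] (x : Pt A) : Ln A → Prop
  | Ln.C k => k ∉ V x
  | Ln.T a b => x = i01 a ∨ x = i12 b ∨ x = i02 (a * b)

set_option linter.unusedSectionVars false

variable {A : Type} [Group A]

theorem V_inl (i : Fin 3) : V (Sum.inl i : Pt A) = {i} := rfl
theorem V_01 (a : A) : V (i01 a) = {0, 1} := rfl
theorem V_12 (a : A) : V (i12 a) = {1, 2} := rfl
theorem V_02 (a : A) : V (i02 a) = {0, 2} := rfl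

theorem i01_inj {a b : A} : i01 a = i01 b ↔ a = b := by simp [i01]
theorem i12_inj {a b : A} : i12 a = i12 b ↔ a = b := by simp [i12]
theorem i02_inj {a b : A} : i02 a = i02 b ↔ a = b := by simp [i02]
theorem n1 {a b : A} : i01 a ≠ i12 b := by simp [i01, i12]
theorem n2 {a b : A} : i01 a ≠ i02 b := by simp [i01, i02]
theorem n3 {a b : A} : i12 a ≠ i02 b := by simp [i12, i02]
theorem n1' {a b : A} : i12 b ≠ i01 a := by simp [i01, i12]
theorem n2' {a b : A} : i02 b ≠ i01 a := by simp [i01, i02]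
theorem n3' {a b : A} : i02 b ≠ i12 a := by simp [i12, i02]
theorem m1 {i : Fin 3} {b : A} : (Sum.inl i : Pt A) ≠ i01 b := by simp [i01]
theorem m2 {i : Fin 3} {b : A} : (Sum.inl i : Pt A) ≠ i12 b := by simp [i12]
theorem m3 {i : Fin 3} {b : A} : (Sum.inl i : Pt A) ≠ i02 b := by simp [i02]

/-- two points determine the line -/
theorem line_unique {x y : Pt A} (hxy : x ≠ y) {l l' : Ln A} (h1 : On x l) (h2 : On y l) (h3 : On x l')
    (h4 : On y l') : l = l' := by
  rcases l with k | ⟨a, b⟩ <;> rcases l' with k' | ⟨a', b'⟩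
  · -- two coordinate lines
    simp only [On] at h1 h2 h3 h4
    congr 1
    by_contra hk
    have hV : (∃ i j, i ≠ j ∧ V x = {i} ∧ V y = {j}) ∨ (V x = {0, 1} ∨ V x = {1, 2} ∨ V x = {0, 2}) ∨
        (V y = {0, 1} ∨ V y = {1, 2} ∨ V y = {0, 2}) := by
      rcases pt_cases x with ⟨i, rfl⟩ | ⟨u, rfl⟩ | ⟨u, rfl⟩ | ⟨u, rfl⟩
      · rcases pt_cases y with ⟨j, rfl⟩ | ⟨v, rfl⟩ | ⟨v, rfl⟩ | ⟨v, rfl⟩
        · exact Or.inl ⟨i, j, fun h => hxy (by rw [h]), rfl, rfl⟩
        · exact Or.inr (Or.inr (Or.inl rfl))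
        · exact Or.inr (Or.inr (Or.inr (Or.inl rfl)))
        · exact Or.inr (Or.inr (Or.inr (Or.inr rfl)))
      · exact Or.inr (Or.inl (Or.inl rfl))
      · exact Or.inr (Or.inl (Or.inr (Or.inl rfl)))
      · exact Or.inr (Or.inl (Or.inr (Or.inr rfl)))
    clear hxy
    rcases hV with ⟨i, j, hij, e1, e2⟩ | (e | e | e) | (e | e | e)
    · rw [e1] at h1 h3
      rw [e2] at h2 h4
      clear e1 e2
      revert i j k k'
      decide
    all_goals
      first
        | (rw [e] at h1 h3; clear h2 h4 e; revert k k'; decide)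
        | (rw [e] at h2 h4; clear h1 h3 e; revert k k'; decide)
  · exfalso
    simp only [On] at h1 h2 h3 h4
    rcases h3 with rfl | rfl | rfl <;> rcases h4 with rfl | rfl | rfl <;>
    simp only [V_01, V_12, V_02] at h1 h2 <;>
    first
      | exact hxy rfl
      | (revert h1 h2; revert k; decide)
  · exfalso
    simp only [On] at h1 h2 h3 h4
    rcases h1 with rfl | rfl | rfl <;> rcases h2 with rfl | rfl | rfl <;>
    simp only [V_01, V_12, V_02] at h3 h4 <;>
    first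
      | exact hxy rfl
      | (revert h3 h4; revert k'; decide)
  · simp only [On] at h1 h2 h3 h4
    rcases h1 with rfl | rfl | rfl <;> rcases h2 with rfl | rfl | rfl <;>
    simp_all [i01_inj, i12_inj, i02_inj, n1, n2, n3, n1', n2', n3']

end Pool.Agent.L7h88.Dow
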