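import Pool.Agent.L7h88.Dow.Emb

/-! The group: `t a ^ 2 = a ^ 3 t` with `t a t⁻¹` not commuting with `a`. -/

namespace Pool.Agent.L7h88.Dow

open Finset

/-- in a finite group the relation forces commutation -/
theorem fin_comm {H : Type} [Group H] [Finite H] {x y : H} (h : y * (x * x) = x * (x * x) * y) :
    y * x * y⁻¹ * x = x * (y * x * y⁻¹) := by
  have h1 : y * x ^ 2 * y⁻¹ = x ^ 3 := by
    rw [pow_two, h, pow_succ, pow_two]; group
  have h2 : orderOf (x ^ 2) = orderOf (x ^ 3) := by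
    rw [← h1]
    have : y * x ^ 2 * y⁻¹ = MulAut.conj y (x ^ 2) := by simp
    rw [this]
    exact (MulEquiv.orderOf_eq (MulAut.conj y) (x ^ 2)).symm
  have hN : 0 < orderOf x := orderOf_pos x
  rw [orderOf_pow, orderOf_pow] at h2
  have h3 : Nat.gcd (orderOf x) 2 = Nat.gcd (orderOf x) 3 := by
    have a1 := Nat.div_mul_cancel (Nat.gcd_dvd_left (orderOf x) 2)
    have a2 := Nat.div_mul_cancel (Nat.gcd_dvd_left (orderOf x) 3)
    have a3 : 0 < orderOf x / Nat.gcd (orderOf x) 2 :=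
      Nat.div_pos (Nat.le_of_dvd hN (Nat.gcd_dvd_left _ _)) (Nat.gcd_pos_of_pos_left _ hN)
    rw [← h2] at a2
    exact Nat.eq_of_mul_eq_mul_left a3 (a1.trans a2.symm)
  have h4 : Nat.gcd (orderOf x) 2 = 1 := by
    have b1 : Nat.gcd (orderOf x) 2 ∣ 2 := Nat.gcd_dvd_right _ _
    have b2 : Nat.gcd (orderOf x) 2 ∣ 3 := by rw [h3]; exact Nat.gcd_dvd_right _ _
    have b3 := Nat.dvd_sub b2 b1
    simpa using b3
  -- `x` is a power of `x ^ 2`
  have h5 : ∃ m : ℕ, (x ^ 2) ^ m = x := exists_pow_eq_self_of_coprime (Nat.Coprime.symm h4)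
  obtain ⟨m, hm⟩ := h5
  have h6 : y * x * y⁻¹ = x ^ (3 * m) := by
    calc y * x * y⁻¹ = y * (x ^ 2) ^ m * y⁻¹ := by rw [hm]
      _ = (y * x ^ 2 * y⁻¹) ^ m := by rw [conj_pow]
      _ = x ^ (3 * m) := by rw [h1, pow_mul]
  rw [h6, ← pow_succ, ← pow_succ']

/-- the shift -/
def pa : Equiv.Perm (ℤ × ℕ) where
  toFun p := (p.1 + 1, p.2)
  invFun p := (p.1 - 1, p.2)
  left_inv p := by simp
  right_inv p := by simp

/-- the conjugator -/
def pt : Equiv.Perm (ℤ × ℕ) where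
  toFun p := (3 * (p.1 / 2) + ((2 * p.2 + (p.1 % 2).toNat) % 3 : ℕ), (2 * p.2 + (p.1 % 2).toNat) / 3)
  invFun p := (2 * (p.1 / 3) + ((3 * p.2 + (p.1 % 3).toNat) % 2 : ℕ), (3 * p.2 + (p.1 % 3).toNat) / 2)
  left_inv p := by
    obtain ⟨x, i⟩ := p
    simp only
    obtain ⟨r, hr⟩ : ∃ r : ℕ, r = (x % 2).toNat := ⟨_, rfl⟩
    obtain ⟨s, hs⟩ : ∃ s : ℕ, s = (2 * i + r) % 3 := ⟨_, rfl⟩
    obtain ⟨j, hj⟩ : ∃ j : ℕ, j = (2 * i + r) / 3 := ⟨_, rfl⟩
    have e1 : (3 * (x / 2) + (s : ℤ)) / 3 = x / 2 := by omega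
    have e2 : ((3 * (x / 2) + (s : ℤ)) % 3).toNat = s := by omega
    have e3 : 3 * j + s = 2 * i + r := by omega
    rw [← hr, ← hs, ← hj, e1, e2, e3]
    ext
    · simp only; omega
    · simp only; omega
  right_inv p := by
    obtain ⟨x, i⟩ := p
    simp only
    obtain ⟨r, hr⟩ : ∃ r : ℕ, r = (x % 3).toNat := ⟨_, rfl⟩
    obtain ⟨s, hs⟩ : ∃ s : ℕ, s = (3 * i + r) % 2 := ⟨_, rfl⟩
    obtain ⟨j, hj⟩ : ∃ j : ℕ, j = (3 * i + r) / 2 := ⟨_, rfl⟩
    have e1 : (2 * (x / 3) + (s : ℤ)) / 2 = x / 3 := by omega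
    have e2 : ((2 * (x / 3) + (s : ℤ)) % 2).toNat = s := by omega
    have e3 : 2 * j + s = 3 * i + r := by omega
    rw [← hr, ← hs, ← hj, e1, e2, e3]
    ext
    · simp only; omega
    · simp only; omega

theorem rel : pt * (pa * pa) = pa * (pa * pa) * pt := by
  ext ⟨x, i⟩
  · simp only [Equiv.Perm.mul_apply, pa, pt, Equiv.coe_fn_mk]; omega
  · simp only [Equiv.Perm.mul_apply, pa, pt, Equiv.coe_fn_mk]; omega

/-- the ten elements -/
def ee : Fin 10 → Equiv.Perm (ℤ × ℕ) :=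
  ![1, pa, pa * pa, pa * (pa * pa), pt, pt * (pa * pa), pt * pa * pt⁻¹, pt * pa,
    pa * (pt * pa * pt⁻¹), (pt * pa * pt⁻¹) * pa]

theorem ee_inj : Function.Injective ee := by
  have h : ∀ s s' : Fin 10, (ee s (-3, 0), ee s (-3, 1)) = (ee s' (-3, 0), ee s' (-3, 1)) → s = s' := by
    decide
  intro s s' hs
  exact h s s' (by rw [hs])

theorem not_finite : ¬ Finite (Equiv.Perm (ℤ × ℕ)) := by
  intro hf
  have h1 := fin_comm (x := pa) (y := pt) rel
  have h2 : ee 9 = ee 8 := h1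
  exact absurd (ee_inj h2) (by decide)

theorem no_hom {B : Type} [Group B] [Finite B] (k : Fin 10 → B) (hk : Function.Injective k)
    (h : ∀ s t w, ee s * ee t = ee w → k s * k t = k w) : False := by
  have e2 := h 1 1 2 rfl
  have e3 := h 1 2 3 rfl
  have e5 := h 4 2 5 rfl
  have e5' := h 3 4 5 rel.symm
  have e7 := h 4 1 7 rfl
  have e7' := h 6 4 7 (by show pt * pa * pt⁻¹ * pt = pt * pa; group)
  have e8 := h 1 6 8 rfl
  have e9 := h 6 1 9 rfl
  have h1 : k 4 * (k 1 * k 1) = k 1 * (k 1 * k 1) * k 4 := by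
    rw [e2, e3, e5, e5']
  have h2 := fin_comm h1
  have h3 : k 6 = k 4 * k 1 * (k 4)⁻¹ := by
    rw [e7, ← e7']; group
  rw [← h3, e8, e9] at h2
  exact absurd (hk h2) (by decide)

/-- independence of three distinct points -/
theorem ind_three {A : Type} [Group A] {n : ℕ} {f : Fin n → Pt A} (hf : Function.Injective f)
    {x y z : Fin n} (h1 : x ≠ y) (h2 : x ≠ z) (h3 : y ≠ z) :
    Ind (f '' {x, y, z}) ↔ ¬ Col (f x) (f y) (f z) := by
  rw [ind_iff]
  simp only [Set.forall_mem_image, ne_eq, hf.eq_iff]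
  constructor
  · rintro ⟨-, h⟩
    exact h (by simp) (by simp) (by simp) h1 h2 h3
  · intro h
    refine ⟨?_, ?_⟩
    · rintro a (rfl | rfl | rfl) b (rfl | rfl | rfl) c (rfl | rfl | rfl) d (rfl | rfl | rfl) <;> simp
    · rintro a ha b hb c hc g1 g2 g3 ⟨l, l1, l2, l3⟩
      apply h
      rcases ha with rfl | rfl | rfl <;> rcases hb with rfl | rfl | rfl <;> rcases hc with rfl | rfl | rfl <;>
        first
          | exact absurd rfl g1
          | exact absurd rfl g2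
          | exact absurd rfl g3
          | exact ⟨l, by assumption, by assumption, by assumption⟩

/-- **the counterexample** -/
theorem main : ∃ (n : ℕ) (M : Matroid (Fin n)) (f : Fin n → Pt (Equiv.Perm (ℤ × ℕ))),
    Set.InjOn f M.E ∧ (∀ X ⊆ M.E, (M.Indep X ↔ Ind (f '' X))) ∧
    ∀ (B : Type) (_ : Group B), Finite B → ∀ g : Fin n → Pt B, Set.InjOn g M.E →
      ¬ ∀ X ⊆ M.E, (M.Indep X ↔ Ind (g '' X)) := by
  classical
  obtain ⟨q⟩ : Nonempty (Fin (Fintype.card D) ≃ D) := ⟨(Fintype.equivFin D).symm⟩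
  have hf : Function.Injective (pos ee ∘ q) := (pos_inj ee_inj).comp q.injective
  obtain ⟨M, hE, hM⟩ := exists_matroid (pos ee ∘ q) hf
  refine ⟨Fintype.card D, M, pos ee ∘ q, hf.injOn, fun X _ => hM X, ?_⟩
  intro B _ _ g hg hX
  rw [hE] at hg hX
  have hgi : Function.Injective g := Set.injOn_univ.1 hg
  have key : ∀ x y z : D, x ≠ y → x ≠ z → y ≠ z → (Col (pos ee x) (pos ee y) (pos ee z) ↔
      Col (g (q.symm x)) (g (q.symm y)) (g (q.symm z))) := by
    intro x y z h1 h2 h3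
    have a1 : q.symm x ≠ q.symm y := fun h => h1 (q.symm.injective h)
    have a2 : q.symm x ≠ q.symm z := fun h => h2 (q.symm.injective h)
    have a3 : q.symm y ≠ q.symm z := fun h => h3 (q.symm.injective h)
    have b1 := ind_three hf a1 a2 a3
    have b2 := ind_three hgi a1 a2 a3
    rw [← hM, hX _ (Set.subset_univ _), b2] at b1
    simp only [Function.comp_apply, Equiv.apply_symm_apply] at b1
    exact (not_iff_not.1 b1).symm
  obtain ⟨k, hk1, hk2⟩ := exists_hom (e := ee) rfl (g ∘ q.symm) (hgi.comp q.symm.injective)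
    (fun x y z h1 h2 h3 h => (key x y z h1 h2 h3).1 h)
    (fun h => (key _ _ _ (by simp) (by simp) (by simp)).2 h)
  exact no_hom k hk1 hk2

end Pool.Agent.L7h88.Dow
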