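import Pool.Agent.L7h88.Dow.Geo

/-! The rank three Dowling geometry: the matroid. -/

namespace Pool.Agent.L7h88.Dow

open Finset

set_option linter.unusedSectionVars false

variable {A : Type} [Group A]

theorem V_nonempty (x : Pt A) : (V x).Nonempty := by
  rcases pt_cases x with ⟨i, rfl⟩ | ⟨u, rfl⟩ | ⟨u, rfl⟩ | ⟨u, rfl⟩
  · rw [V_inl]; simp
  · rw [V_01]; simp
  · rw [V_12]; simp
  · rw [V_02]; simp

/-- a balanced set lies on a transversal line -/
theorem Bal.line {T : Finset (Pt A)} (h : Bal T) : ∃ a b : A, ∀ x ∈ T, On x (Ln.T a b) := by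
  obtain ⟨h1, φ, h2⟩ := h
  refine ⟨φ 0 * (φ 1)⁻¹, φ 1 * (φ 2)⁻¹, fun x hx => ?_⟩
  rcases pt_cases x with ⟨i, rfl⟩ | ⟨u, rfl⟩ | ⟨u, rfl⟩ | ⟨u, rfl⟩
  · exact absurd hx (h1 i)
  · left
    rw [i01_inj]
    exact h2 _ hx
  · right; left
    rw [i12_inj]
    exact h2 _ hx
  · right; right
    rw [i02_inj]
    have := h2 _ hx
    simp only at this
    rw [this]
    group

theorem bal_of_line {T : Finset (Pt A)} {a b : A} (h : ∀ x ∈ T, On x (Ln.T a b)) : Bal T := by
  refine ⟨fun i hi => ?_, ![a * b, b, 1], fun x hx => ?_⟩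
  · rcases h _ hi with h1 | h1 | h1
    · exact m1 h1
    · exact m2 h1
    · exact m3 h1
  · rcases h _ hx with h1 | h1 | h1
    · rw [i01, Sum.inr.injEq] at h1
      subst h1
      simp
    · rw [i12, Sum.inr.injEq] at h1
      subst h1
      simp
    · rw [i02, Sum.inr.injEq] at h1
      subst h1
      simp

/-- collinearity -/
def Col (x y z : Pt A) : Prop := ∃ l : Ln A, On x l ∧ On y l ∧ On z l

theorem ind_iff (S : Set (Pt A)) : Ind S ↔
    (∀ x ∈ S, ∀ y ∈ S, ∀ z ∈ S, ∀ w ∈ S, x ≠ y → x ≠ z → x ≠ w → y ≠ z → y ≠ w → z ≠ w → False) ∧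
    (∀ x ∈ S, ∀ y ∈ S, ∀ z ∈ S, x ≠ y → x ≠ z → y ≠ z → ¬ Col x y z) := by
  classical
  constructor
  · intro h
    constructor
    · intro x hx y hy z hz w hw h1 h2 h3 h4 h5 h6
      have h7 := (h {x, y, z, w} (by
        intro t ht
        simp only [coe_insert, coe_singleton, Set.mem_insert_iff, Set.mem_singleton_iff] at ht
        rcases ht with rfl | rfl | rfl | rfl <;> assumption) ⟨x, by simp⟩).1
      have h8 : ({x, y, z, w} : Finset (Pt A)).card = 4 := by
        rw [card_insert_of_notMem, card_insert_of_notMem, card_insert_of_notMem, card_singleton]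
        · simpa using h6
        · simp [h4, h5]
        · simp [h1, h2, h3]
      have h9 := card_le_univ (({x, y, z, w} : Finset (Pt A)).biUnion fun e => V e)
      rw [Fintype.card_fin] at h9
      omega
    · intro x hx y hy z hz h1 h2 h3 ⟨l, g1, g2, g3⟩
      have h7 := h {x, y, z} (by
        intro t ht
        simp only [coe_insert, coe_singleton, Set.mem_insert_iff, Set.mem_singleton_iff] at ht
        rcases ht with rfl | rfl | rfl <;> assumption) ⟨x, by simp⟩
      have h8 : ({x, y, z} : Finset (Pt A)).card = 3 := by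
        rw [card_insert_of_notMem, card_insert_of_notMem, card_singleton]
        · simpa using h3
        · simp [h1, h2]
      have h9 := card_le_univ (({x, y, z} : Finset (Pt A)).biUnion fun e => V e)
      rw [Fintype.card_fin] at h9
      rcases l with k | ⟨a, b⟩
      · have h10 : (({x, y, z} : Finset (Pt A)).biUnion fun e => V e) ⊆ univ.erase k := by
          intro i hi
          rw [mem_biUnion] at hi
          obtain ⟨e, he1, he2⟩ := hi
          rw [mem_erase]
          refine ⟨?_, mem_univ _⟩
          rintro rfl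
          simp only [mem_insert, mem_singleton] at he1
          rcases he1 with rfl | rfl | rfl
          · exact g1 he2
          · exact g2 he2
          · exact g3 he2
        have h11 := card_le_card h10
        rw [card_erase_of_mem (mem_univ _), card_univ, Fintype.card_fin] at h11
        omega
      · have h10 : Bal ({x, y, z} : Finset (Pt A)) := by
          refine bal_of_line (a := a) (b := b) fun e he => ?_
          simp only [mem_insert, mem_singleton] at he
          rcases he with rfl | rfl | rfl <;> assumption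
        have := h7.2 h10
        omega
  · rintro ⟨h4, h3⟩ T hT hne
    have hcard : T.card ≤ 3 := by
      by_contra hcon
      obtain ⟨T', hT', hc⟩ := exists_subset_card_eq (show 4 ≤ T.card by omega)
      obtain ⟨x, t, hx, ht, htc⟩ := card_eq_succ.1 hc
      obtain ⟨y, z, w, g1, g2, g3, rfl⟩ := card_eq_three.1 htc
      have hm : ∀ e, e = x ∨ e = y ∨ e = z ∨ e = w → e ∈ S := by
        intro e he
        apply hT
        apply hT'
        rw [← ht]
        simpa using he
      simp only [mem_insert, mem_singleton, not_or] at hx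
      exact h4 x (hm x (by simp)) y (hm y (by simp)) z (hm z (by simp)) w (hm w (by simp))
        hx.1 hx.2.1 hx.2.2 g1 g2 g3
    -- a vertex that is missed gives a coordinate line
    have hmiss : ∀ k, k ∉ (T.biUnion fun e => V e) → ∀ x ∈ T, On x (Ln.C k) := by
      intro k hk x hx hkx
      exact hk (mem_biUnion.2 ⟨x, hx, hkx⟩)
    have h3' : ∀ l, (∀ x ∈ T, On x l) → T.card ≤ 2 := by
      intro l hl
      by_contra hcon
      obtain ⟨x, y, z, g1, g2, g3, rfl⟩ := card_eq_three.1 (show T.card = 3 by omega)
      exact h3 x (hT (by simp)) y (hT (by simp)) z (hT (by simp)) g1 g2 g3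
        ⟨l, hl _ (by simp), hl _ (by simp), hl _ (by simp)⟩
    have h2' : ∀ l l', (∀ x ∈ T, On x l) → (∀ x ∈ T, On x l') → l ≠ l' → T.card ≤ 1 := by
      intro l l' hl hl' hne
      by_contra hcon
      obtain ⟨x, hx, y, hy, hxy⟩ := one_lt_card.1 (show 1 < T.card by omega)
      exact hne (line_unique hxy (hl x hx) (hl y hy) (hl' x hx) (hl' y hy))
    obtain ⟨x0, hx0⟩ := hne
    have hc1 : 1 ≤ (T.biUnion fun e => V e).card := by
      rw [Nat.one_le_iff_ne_zero, ← Nat.pos_iff_ne_zero, card_pos]
      obtain ⟨i, hi⟩ := V_nonempty x0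
      exact ⟨i, mem_biUnion.2 ⟨x0, hx0, hi⟩⟩
    have hcomp : (T.biUnion fun e => V e)ᶜ.card = 3 - (T.biUnion fun e => V e).card := by
      rw [card_compl, Fintype.card_fin]
    constructor
    · rcases Nat.lt_or_ge (T.biUnion fun e => V e).card 3 with h5 | h5
      · -- one vertex is missed
        rcases Nat.lt_or_ge (T.biUnion fun e => V e).card 2 with h6 | h6
        · obtain ⟨k, hk, k', hk', hkk⟩ := one_lt_card.1 (show 1 < (T.biUnion fun e => V e)ᶜ.card by omega)
          rw [mem_compl] at hk hk'
          have := h2' _ _ (hmiss k hk) (hmiss k' hk') (by simpa using hkk)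
          omega
        · obtain ⟨k, hk⟩ := card_pos.1 (show 0 < (T.biUnion fun e => V e)ᶜ.card by omega)
          rw [mem_compl] at hk
          have := h3' _ (hmiss k hk)
          omega
      · omega
    · intro hb
      obtain ⟨a, b, hab⟩ := hb.line
      have h5 := h3' _ hab
      rcases Nat.lt_or_ge (T.biUnion fun e => V e).card 3 with h6 | h6
      · obtain ⟨k, hk⟩ := card_pos.1 (show 0 < (T.biUnion fun e => V e)ᶜ.card by omega)
        rw [mem_compl] at hk
        have h7 := h2' _ _ (hmiss k hk) hab (by simp)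
        have h8 : 2 ≤ (T.biUnion fun e => V e).card := by
          have h9 : V x0 ⊆ T.biUnion fun e => V e := subset_biUnion_of_mem (fun e => V e) hx0
          have h10 : (V x0).card = 2 := by
            rcases hab x0 hx0 with h | h | h
            · rw [h, V_01]; decide
            · rw [h, V_12]; decide
            · rw [h, V_02]; decide
          have := card_le_card h9
          omega
        omega
      · omega

/-- the matroid of a family of distinct points -/
theorem exists_matroid {n : ℕ} (f : Fin n → Pt A) (hf : Function.Injective f) :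
    ∃ M : Matroid (Fin n), M.E = Set.univ ∧ ∀ X : Set (Fin n), M.Indep X ↔ Ind (f '' X) := by
  classical
  have key : ∀ X : Set (Fin n), Ind (f '' X) ↔
      (∀ x ∈ X, ∀ y ∈ X, ∀ z ∈ X, ∀ w ∈ X, x ≠ y → x ≠ z → x ≠ w → y ≠ z → y ≠ w → z ≠ w → False) ∧
      (∀ x ∈ X, ∀ y ∈ X, ∀ z ∈ X, x ≠ y → x ≠ z → y ≠ z → ¬ Col (f x) (f y) (f z)) := by
    intro X
    rw [ind_iff]
    simp only [Set.forall_mem_image, ne_eq, hf.eq_iff]
  refine ⟨(IndepMatroid.ofFinite (E := Set.univ) Set.finite_univ (fun X => Ind (f '' X)) ?_ ?_ ?_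
    (fun _ _ => Set.subset_univ _)).matroid, rfl, fun X => Iff.rfl⟩
  · rw [key]
    simp
  · intro I J hJ hIJ T hT hne
    exact hJ T (hT.trans (Set.image_mono hIJ)) hne
  · intro I J hI hJ hlt
    rw [key] at hI hJ
    simp only [key]
    have hJ3 : J.ncard ≤ 3 := by
      by_contra hcon
      obtain ⟨J', hJ', hc⟩ := Set.exists_subset_card_eq (s := J) (show 4 ≤ J.ncard by omega)
      obtain ⟨x, t, hx, ht, htc⟩ := (Set.ncard_eq_succ (Set.toFinite _)).1 hc
      obtain ⟨y, z, w, g1, g2, g3, rfl⟩ := Set.ncard_eq_three.1 htc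
      have hm : ∀ e, e = x ∨ e = y ∨ e = z ∨ e = w → e ∈ J := by
        intro e he
        apply hJ'
        rw [← ht]
        simpa using he
      simp only [Set.mem_insert_iff, Set.mem_singleton_iff, not_or] at hx
      exact hJ.1 x (hm x (by simp)) y (hm y (by simp)) z (hm z (by simp)) w (hm w (by simp))
        hx.1 hx.2.1 hx.2.2 g1 g2 g3
    have hex : ∃ e ∈ J, e ∉ I := by
      by_contra hcon
      push Not at hcon
      have := Set.ncard_le_ncard (s := J) (t := I) hcon (Set.toFinite _)
      omega
    rcases Nat.lt_or_ge I.ncard 2 with h2 | h2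
    · -- at most one point
      obtain ⟨e, he, heI⟩ := hex
      refine ⟨e, he, heI, ?_⟩
      have hle : ∀ x y : Fin n, x ∈ I → y ∈ I → x = y := by
        intro x y hx hy
        exact (Set.ncard_le_one (Set.toFinite _)).1 (by omega) x hx y hy
      have h3 : ∀ x ∈ insert e I, ∀ y ∈ insert e I, ∀ z ∈ insert e I, x ≠ y → x ≠ z → y ≠ z → False := by
        rintro x (rfl | hx) y (rfl | hy) z (rfl | hz) g1 g2 g3
        · exact g1 rfl
        · exact g1 rfl
        · exact g2 rfl
        · exact g3 (hle _ _ hy hz)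
        · exact g3 rfl
        · exact g2 (hle _ _ hx hz)
        · exact g1 (hle _ _ hx hy)
        · exact g1 (hle _ _ hx hy)
      refine ⟨fun x hx y hy z hz w hw g1 g2 g3 g4 g5 g6 => h3 x hx y hy z hz g1 g2 g4,
        fun x hx y hy z hz g1 g2 g3 _ => h3 x hx y hy z hz g1 g2 g3⟩
    · obtain ⟨x, y, hxy, rfl⟩ := Set.ncard_eq_two.1 (show I.ncard = 2 by omega)
      by_contra hcon
      push Not at hcon
      have hfxy : f x ≠ f y := fun h => hxy (hf h)
      -- every point of `J` outside `{x, y}` is collinear with them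
      have hcol : ∀ e ∈ J, e ≠ x → e ≠ y → Col (f x) (f y) (f e) := by
        intro e he h5 h6
        have h7 := hcon e he (by simp [h5, h6])
        by_contra hnc
        obtain ⟨a, ha, b, hb, c, hc, g1, g2, g3, l, l1, l2, l3⟩ := h7 (by
          rintro a (rfl | rfl | rfl) b (rfl | rfl | rfl) c (rfl | rfl | rfl) d (rfl | rfl | rfl) <;>
            simp)
        apply hnc
        rcases ha with rfl | rfl | rfl <;> rcases hb with rfl | rfl | rfl <;> rcases hc with rfl | rfl | rfl <;>
          first
            | exact absurd rfl g1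
            | exact absurd rfl g2
            | exact absurd rfl g3
            | exact ⟨l, by assumption, by assumption, by assumption⟩
      obtain ⟨e0, he0, he0'⟩ := hex
      simp only [Set.mem_insert_iff, Set.mem_singleton_iff, not_or] at he0'
      obtain ⟨l, l1, l2, l3⟩ := hcol e0 he0 he0'.1 he0'.2
      have hall : ∀ e ∈ J, On (f e) l := by
        intro e he
        by_cases h5 : e = x
        · rw [h5]; exact l1
        by_cases h6 : e = y
        · rw [h6]; exact l2
        obtain ⟨l', m1, m2, m3⟩ := hcol e he h5 h6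
        rw [line_unique hfxy l1 l2 m1 m2]
        exact m3
      obtain ⟨a, b, c, g1, g2, g3, hJe⟩ := Set.ncard_eq_three.1 (show J.ncard = 3 by omega)
      exact hJ.2 a (by rw [hJe]; simp) b (by rw [hJe]; simp) c (by rw [hJe]; simp) g1 g2 g3
        ⟨l, hall a (by rw [hJe]; simp), hall b (by rw [hJe]; simp), hall c (by rw [hJe]; simp)⟩

end Pool.Agent.L7h88.Dow
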